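import Pool.Agent.H55.QE.Targets

/-!
# MP_0f8dca_lc: row LIME, the exponents tend to one and to infinity
-/

namespace Pool.Agent.H34.QE

open Finset Matrix Pool.Agent.H55.QE
open Filter Topology

theorem hardE_eps {k : ℕ} {ε ε' c C : ℝ} (h : ε' ≤ ε) (hH : HardE k ε' c C) :
    HardE k ε c C := by
  obtain ⟨K, γ, hγ, n₀, hn⟩ := hH
  refine ⟨K, γ, hγ, n₀, fun n hnn => ?_⟩
  obtain ⟨Y, m, phi, hY, h1, h2⟩ := hn n hnn
  refine ⟨Y, m, phi, hY, fun a => ?_, h2⟩
  obtain ⟨p1, p2, p3, p4⟩ := h1 a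
  refine ⟨p1, p2, p3, fun x => le_trans ?_ (p4 x)⟩
  exact mul_le_mul_of_nonneg_right (by linarith) (by positivity)

theorem pf_LIME (hP : S_PADE) : S_LIME := by
  classical
  intro hA h3 ε hε
  obtain ⟨c0, hc0, hH3⟩ := h3 ε hε
  -- the widths
  have hex : ∀ j : ℕ, ∃ k : ℕ, HardE k (min ε (1 / ((j : ℝ) + 1)))
      (1 - min ε (1 / ((j : ℝ) + 1))) ((j : ℝ) + 2) := fun j =>
    hA _ _ (lt_min hε (by positivity))
  choose K hK using hex
  have hbig : ∀ j k : ℕ, K j ≤ k → HardE k ε (1 - 2 / ((j : ℝ) + 1)) ((j : ℝ) + 1) := by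
    intro j k hk
    have h1 := hardE_eps (min_le_left ε (1 / ((j : ℝ) + 1))) (hK j)
    have h2 : min ε (1 / ((j : ℝ) + 1)) ≤ 1 / ((j : ℝ) + 1) := min_le_right _ _
    have h4 : 0 < 1 / ((j : ℝ) + 1) := by positivity
    have h5 : 2 / ((j : ℝ) + 1) = 2 * (1 / ((j : ℝ) + 1)) := by ring
    exact hP (K j) k ε _ _ _ _ hk (by rw [h5]; linarith) (by linarith) h1
  have hsmall : ∀ k : ℕ, 3 ≤ k → HardE k ε (c0 / 4) (c0 / 4) := fun k hk =>
    hP 3 k ε c0 (c0 / 4) c0 (c0 / 4) hk (by linarith) (by linarith) hH3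
  let J : ℕ → ℕ := fun k => Nat.findGreatest (fun j => 2 ≤ j ∧ K j ≤ k) k
  have hJs : ∀ k, 2 ≤ J k → K (J k) ≤ k := fun k hk =>
    (Nat.findGreatest_of_ne_zero (P := fun j => 2 ≤ j ∧ K j ≤ k) (n := k) rfl
      (show J k ≠ 0 by omega)).2
  have hJt : Tendsto J atTop atTop := by
    refine tendsto_atTop.2 fun b => eventually_atTop.2 ⟨max (K (b + 2)) (b + 2), fun k hk => ?_⟩
    have h1 : K (b + 2) ≤ k := (le_max_left _ _).trans hk
    have h2 : b + 2 ≤ k := (le_max_right _ _).trans hk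
    have h3 : b + 2 ≤ J k :=
      Nat.le_findGreatest (P := fun j => 2 ≤ j ∧ K j ≤ k) h2 ⟨by omega, h1⟩
    omega
  have hJ2 : ∀ᶠ k in atTop, 2 ≤ J k := hJt.eventually_ge_atTop 2
  have hpos : ∀ j : ℕ, 2 ≤ j → 0 < 1 - 2 / ((j : ℝ) + 1) ∧
      1 - 2 / ((j : ℝ) + 1) ≤ (j : ℝ) + 1 := by
    intro j hj
    have hj' : (2 : ℝ) ≤ j := by exact_mod_cast hj
    have h1 : 2 / ((j : ℝ) + 1) < 1 := by
      rw [div_lt_one (by linarith)]
      linarith
    have h2 : 0 < 2 / ((j : ℝ) + 1) := by positivity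
    constructor <;> linarith
  refine ⟨fun k => if 2 ≤ J k then 1 - 2 / ((J k : ℝ) + 1) else c0 / 4,
    fun k => if 2 ≤ J k then (J k : ℝ) + 1 else c0 / 4, ?_, ?_, ?_, ?_⟩
  · intro k _
    by_cases h : 2 ≤ J k
    · simp only [h, if_true]
      exact hpos _ h
    · simp only [h, if_false]
      exact ⟨by linarith, le_rfl⟩
  · have h1 : Tendsto (fun j : ℕ => 1 - 2 * (1 / ((j : ℝ) + 1))) atTop (𝓝 (1 - 2 * 0)) :=
      (tendsto_one_div_add_atTop_nhds_zero_nat.const_mul 2).const_sub 1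
    rw [mul_zero, sub_zero] at h1
    have h2 := h1.comp hJt
    refine h2.congr' ?_
    filter_upwards [hJ2] with k hk
    simp only [hk, if_true, Function.comp]
    ring
  · have h1 : Tendsto (fun k => (J k : ℝ) + 1) atTop atTop :=
      tendsto_atTop_add_const_right _ _ (tendsto_natCast_atTop_atTop.comp hJt)
    refine h1.congr' ?_
    filter_upwards [hJ2] with k hk
    simp only [hk, if_true]
  · intro k hk
    by_cases h : 2 ≤ J k
    · simp only [h, if_true]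
      exact hbig _ _ (hJs k h)
    · simp only [h, if_false]
      exact hsmall k hk

end Pool.Agent.H34.QE
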